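import Pool.Agent.Q195.EP3

set_option autoImplicit false

/-!
# MP_0f3a14_an, Q1: an extreme Delta-point that is neither a ccs nor a super Delta-point
-/

namespace Pool.Agent.Results.MP_0f3a14_an.ExtremeDeltaOnly

variable {X : Type*} [NormedAddCommGroup X] [NormedSpace ℝ X]

/-- The slice of the closed unit ball given by `f` and `α`. -/
def slice (f : StrongDual ℝ X) (α : ℝ) : Set X := {z | ‖z‖ ≤ 1 ∧ ‖f‖ - α < f z}

/-- `C` is a convex combination of slices of the closed unit ball of `X`. -/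
def IsCcs (C : Set X) : Prop :=
  ∃ (n : ℕ) (l : Fin n → ℝ) (f : Fin n → StrongDual ℝ X) (α : Fin n → ℝ),
    (∀ i, 0 < l i) ∧ ∑ i, l i = 1 ∧ (∀ i, f i ≠ 0) ∧ (∀ i, 0 < α i) ∧
    C = {x | ∃ z : Fin n → X, (∀ i, z i ∈ slice (f i) (α i)) ∧ x = ∑ i, l i • z i}

/-- `x` is a `Δ`-point. -/
def IsDelta (x : X) : Prop :=
  ‖x‖ = 1 ∧ ∀ (f : StrongDual ℝ X) (α : ℝ), f ≠ 0 → 0 < α → x ∈ slice f α →
    sSup {r : ℝ | ∃ y ∈ slice f α, r = ‖x - y‖} = 2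

/-- `x` is a ccs `Δ`-point. -/
def IsCcsDelta (x : X) : Prop :=
  ‖x‖ = 1 ∧ ∀ C : Set X, IsCcs C → x ∈ C → sSup {r : ℝ | ∃ y ∈ C, r = ‖x - y‖} = 2

/-- `x` is a super `Δ`-point: `‖x‖ = 1` and `sup_{y ∈ W} ‖x - y‖ = 2` for every relatively weakly
open subset `W = B_X ∩ U` of the unit ball containing `x`. -/
def IsSuperDelta (x : X) : Prop :=
  ‖x‖ = 1 ∧ ∀ U : Set (WeakSpace ℝ X), IsOpen U → toWeakSpace ℝ X x ∈ U →
    sSup {r : ℝ | ∃ y : X, ‖y‖ ≤ 1 ∧ toWeakSpace ℝ X y ∈ U ∧ r = ‖x - y‖} = 2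

/-- There are a real Banach space and an extreme point of its unit ball which is a `Δ`-point but
neither a ccs `Δ`-point nor a super `Δ`-point. -/
theorem result : ∃ (X : Type) (_ : NormedAddCommGroup X) (_ : NormedSpace ℝ X)
    (_ : CompleteSpace X) (x : X), x ∈ Set.extremePoints ℝ (Metric.closedBall (0 : X) 1) ∧
      IsDelta x ∧ ¬ IsCcsDelta x ∧ ¬ IsSuperDelta x := by
  obtain ⟨X, i1, i2, i3, x, h1, h2, h3, h4⟩ := Pool.Agent.Q195.EP.main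
  refine ⟨X, i1, i2, i3, x, h1, ⟨h2, fun f α _ _ hx => ?_⟩, fun hc => ?_, h4⟩
  · obtain ⟨y, hy1, hy2, hy3⟩ := h3 f α hx.2
    have hb : ∀ r ∈ {r : ℝ | ∃ y ∈ slice f α, r = ‖x - y‖}, r ≤ 2 := by
      rintro r ⟨z, hz, rfl⟩
      refine (norm_sub_le _ _).trans ?_
      have := hz.1
      linarith
    have hne : {r : ℝ | ∃ y ∈ slice f α, r = ‖x - y‖}.Nonempty := ⟨‖x - x‖, x, hx, rfl⟩
    apply le_antisymm (csSup_le hne hb)
    have hmem : ‖x - y‖ ∈ {r : ℝ | ∃ y ∈ slice f α, r = ‖x - y‖} := ⟨y, ⟨hy1, hy2⟩, rfl⟩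
    exact hy3.trans (le_csSup ⟨2, hb⟩ hmem)
  · refine h4 (Pool.Agent.Q195.CS.ccs_super x ⟨h2, fun C hC hxC => hc.2 C ?_ hxC⟩)
    obtain ⟨n, l, f, α, hl, hs, hf, hα, rfl⟩ := hC
    refine ⟨n, l, f, α, hl, hs, fun i h0 => ?_, hα, ?_⟩
    · have := hf i
      rw [h0, norm_zero] at this
      norm_num at this
    · simp only [Pool.Agent.Q195.CS.slice, slice, hf]
      rfl

end Pool.Agent.Results.MP_0f3a14_an.ExtremeDeltaOnly
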